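import Mathlib
import Pool.Agent.Lib.P325hg.Defs
import Pool.Agent.Lib.P325r.TypedMain
import Pool.Agent.Lib.P325c.Hard

/-!
# NP-hardness of the gap problem for games played with elements of a group
-/

open Finset

namespace Pool.Agent.P325h

open Pool.Agent.P325f1f.Dich Pool.Agent.P325n Pool.Agent.P325r Pool.Agent.P325t Pool.Agent.P325c

/-- The action transported to the numbered labels. -/
noncomputable def actN {Γ Ω : Type} [Group Γ] [Fintype Ω] (act : Γ →* Equiv.Perm Ω) :
    Γ →* Equiv.Perm (Fin (Fintype.card Ω)) :=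
  (Equiv.permCongrHom (Fintype.equivFin Ω)).toMonoidHom.comp act

theorem actN_apply {Γ Ω : Type} [Group Γ] [Fintype Ω] (act : Γ →* Equiv.Perm Ω) (x : Γ) :
    actN act x = (Fintype.equivFin Ω).symm.trans ((act x).trans (Fintype.equivFin Ω)) := rfl

theorem actN_inv {Γ Ω : Type} [Group Γ] [Fintype Ω] (act : Γ →* Equiv.Perm Ω) (x : Γ) :
    (actN act x)⁻¹ =
      (Fintype.equivFin Ω).symm.trans (((act x)⁻¹).trans (Fintype.equivFin Ω)) := by
  rw [← map_inv, actN_apply, map_inv]

theorem played_of_typed {Γ κ Ω : Type} [Group Γ] [Fintype κ] [Fintype Ω] (g : κ → Γ) (w : κ → ℕ)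
    (act : Γ →* Equiv.Perm Ω) (I : Inst (Fintype.card Ω))
    (hI : I ∈ TypedInst (T0 κ) (fun a : κ × Bool => w a.1) (fun a => (Fintype.equivFin Ω).symm.trans
      ((lperm (fun k => act (g k)) a).trans (Fintype.equivFin Ω)))) :
    I ∈ PlayedInst g w (actN act) := by
  classical
  obtain ⟨a, b, c, h1, h2⟩ := hI
  refine ⟨fun e => (c e).1, ?_, ?_⟩
  · intro e
    have h3 : I.game.perm e = (Fintype.equivFin Ω).symm.trans
        ((lperm (fun k => act (g k)) (c e)).trans (Fintype.equivFin Ω)) := (h1 e).2.2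
    by_cases hc : (c e).2 = true
    · left
      have h4 : lperm (fun k => act (g k)) (c e) = act (g (c e).1) := by
        unfold lperm
        rw [if_pos hc]
      rw [h3, h4]
      rfl
    · right
      have h4 : lperm (fun k => act (g k)) (c e) = (act (g (c e).1))⁻¹ := by
        unfold lperm
        rw [if_neg hc]
      rw [h3, h4, actN_inv]
  · intro k
    have h3 : (univ.filter (fun e => (c e).1 = k)).card =
        (univ.filter (fun e => c e = (k, true))).card +
          (univ.filter (fun e => c e = (k, false))).card := by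
      rw [← Finset.card_union_of_disjoint]
      · congr 1
        ext e
        simp only [mem_filter, mem_univ, true_and, mem_union]
        constructor
        · intro h
          rcases hb : (c e).2 with _ | _
          · exact Or.inr (Prod.ext h hb)
          · exact Or.inl (Prod.ext h hb)
        · rintro (h | h)
          · rw [h]
          · rw [h]
      · rw [Finset.disjoint_filter]
        intro e _ h h'
        rw [h] at h'
        simp at h'
    have h4 := h2 (k, true)
    have h5 := h2 (k, false)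
    have h6 : ∑ l : κ × Bool, w l.1 = 2 * ∑ l, w l := by
      rw [Fintype.sum_prod_type]
      simp only [Fintype.univ_bool, Finset.mem_singleton, Bool.true_eq_false, not_false_eq_true,
        Finset.sum_insert, Finset.sum_singleton]
      rw [Finset.mul_sum]
      exact Finset.sum_congr rfl (fun l _ => by ring)
    rw [h6] at h4 h5
    have h7 : (univ.filter (fun e => (c e).1 = k)).card * (2 * ∑ l, w l) = 2 * (w k * I.m) := by
      rw [h3, add_mul]
      have h4' : (univ.filter (fun e => c e = (k, true))).card * (2 * ∑ l, w l) = w k * I.m := by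
        convert h4
      have h5' : (univ.filter (fun e => c e = (k, false))).card * (2 * ∑ l, w l) = w k * I.m := by
        convert h5
      rw [h4', h5']
      ring
    have h8 : 2 * ((univ.filter (fun e => (c e).1 = k)).card * ∑ l, w l) = 2 * (w k * I.m) := by
      rw [← h7]
      ring
    have h9 := Nat.eq_of_mul_eq_mul_left (by norm_num) h8
    convert h9

/-- The hard half in the form of NP-hardness. -/
theorem groupHard_of {Γ κ : Type} [Group Γ] [Fintype κ] (g : κ → Γ) (w : κ → ℕ)
    (hw : 0 < ∑ k, w k) (θ : ℝ) (hθ0 : 0 ≤ θ)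
    (hard : ∀ t : ℕ, 1 ≤ t →
      ∃ (Ω : Type) (_ : Fintype Ω) (_ : Nonempty Ω) (act : Γ →* Equiv.Perm Ω) (c M : ℝ), 0 < c ∧
        ∀ (U W Λ ι : Type) [Fintype Λ] [DecidableEq Λ] [Nonempty Λ] [Fintype ι] [Nonempty ι]
          (I : Game U W Λ ι),
          (1 - 1 / (t : ℝ)) * I.value ≤ (commGame t w (fun k => act (g k)) I).value ∧
          (commGame t w (fun k => act (g k)) I).value ≤ θ - c + M * I.value)
    (c₁ δ : ℚ) (hc₁ : c₁ ≤ 1) (hδ : θ ≤ (δ : ℝ)) (h : GapHard c₁ allPerms) :
    GroupHard c₁ g w δ := by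
  intro ε hε hεδ
  have hεr : (0 : ℝ) < ε := by exact_mod_cast hε
  have hδ0 : 0 ≤ δ := by
    have : (0 : ℝ) ≤ (δ : ℝ) := hθ0.trans hδ
    exact_mod_cast this
  have hc0 : 0 < c₁ := by linarith
  have hc0r : (0 : ℝ) < c₁ := by exact_mod_cast hc0
  have hc1r : (c₁ : ℝ) ≤ 1 := by exact_mod_cast hc₁
  obtain ⟨t, ht⟩ := exists_nat_gt (2 / (ε : ℝ))
  have ht0 : (0 : ℝ) < t := lt_trans (by positivity) ht
  have ht1 : 1 ≤ t := by
    have : 0 < t := by exact_mod_cast ht0
    omega
  have hinv : 1 / (t : ℝ) ≤ ε / 2 := by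
    rw [div_le_iff₀ ht0]
    rw [div_lt_iff₀ hεr] at ht
    linarith
  obtain ⟨Ω, _, _, act, c, M, hc, hM⟩ := hard t ht1
  obtain ⟨δ2, hδ2, hδ2'⟩ := exists_rat_btwn
    (show (0 : ℝ) < min (c / (|M| + 1)) (c₁ / 2) from lt_min (by positivity) (by positivity))
  have hδ20 : 0 < δ2 := by exact_mod_cast hδ2
  have hδ21 : (δ2 : ℝ) < c / (|M| + 1) := lt_of_lt_of_le hδ2' (min_le_left _ _)
  have hδ22 : δ2 < c₁ / 2 := by
    have h1 : (δ2 : ℝ) < c₁ / 2 := lt_of_lt_of_le hδ2' (min_le_right _ _)
    have h2 : ((δ2 : ℚ) : ℝ) < ((c₁ / 2 : ℚ) : ℝ) := by push_cast; exact h1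
    exact_mod_cast h2
  obtain ⟨q, hq, P', _, hhard⟩ := h (ε / 2) δ2 (by linarith) hδ20 (by linarith)
  have hneq : Nonempty (Fin q) := ⟨⟨0, hq⟩⟩
  have hw2 : 0 < ∑ a : κ × Bool, w a.1 := by
    rw [Fintype.sum_prod_type]
    simp only [Finset.sum_const, Finset.card_univ, Fintype.card_bool, smul_eq_mul]
    rw [← Finset.mul_sum]
    omega
  obtain ⟨R, hR1, hR2⟩ := exists_typed_loc (T0 κ) (fun a : κ × Bool => w a.1) hw2 t ht1
    (fun a => lperm (fun k => act (g k)) a) q
  have hval : ∀ I : Inst q, (R.app I).game.value =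
      (commGame t w (fun k => act (g k)) I.game).value := hR2
  refine ⟨Fintype.card Ω, Fintype.card_pos, actN act, hhard.map R.app (poly_app R) ?_ ?_⟩
  · rintro I ⟨_, hI⟩
    refine ⟨played_of_typed g w act _ (hR1 I), ?_⟩
    rw [hval]
    have hm : Nonempty (Fin I.m) := ⟨⟨0, I.pos⟩⟩
    refine le_trans ?_ (hM _ _ _ _ I.game).1
    have h1 := value_le_one I.game
    have h2 := value_nonneg I.game
    push_cast at hI ⊢
    have h3 : (1 - (ε : ℝ) / 2) * I.game.value ≤ (1 - 1 / (t : ℝ)) * I.game.value :=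
      mul_le_mul_of_nonneg_right (by linarith) h2
    refine le_trans ?_ h3
    nlinarith
  · rintro I ⟨_, hI⟩
    refine ⟨played_of_typed g w act _ (hR1 I), ?_⟩
    rw [hval]
    have hm : Nonempty (Fin I.m) := ⟨⟨0, I.pos⟩⟩
    refine ((hM _ _ _ _ I.game).2).trans ?_
    have h2 := value_nonneg I.game
    have h4 : M * I.game.value ≤ c := by
      have h5 : M * I.game.value ≤ |M| * I.game.value :=
        mul_le_mul_of_nonneg_right (le_abs_self M) h2
      have h6 : |M| * I.game.value ≤ |M| * (c / (|M| + 1)) :=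
        mul_le_mul_of_nonneg_left (hI.trans hδ21.le) (abs_nonneg M)
      have h7 : |M| * (c / (|M| + 1)) ≤ c := by
        rw [mul_div_assoc', div_le_iff₀ (by positivity)]
        nlinarith [abs_nonneg M]
      linarith
    linarith

/-- NP-hardness of such a gap problem with completeness near `1` gives the conjecture. -/
theorem gapHard_of_group {Γ κ : Type} [Group Γ] [Fintype κ] (g : κ → Γ) (w : κ → ℕ) (δ : ℚ)
    (hδ1 : δ < 1) (h : GroupHard 1 g w δ) : GapHard 1 allPerms := by
  refine amplify δ hδ1 (fun ε hε hεδ => ?_)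
  obtain ⟨q, hq, act, hh⟩ := h ε hε hεδ
  exact ⟨q, hq, hh.mono (fun I hI => hI.2) (fun I hI => hI.2)⟩

end Pool.Agent.P325h
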